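import Pool.Agent.Run7.h787.ST.Iface2

/-! # Piece DESC of the project ST (helper67) -/

set_option autoImplicit false

open NumberField IsDedekindDomain

noncomputable section

namespace Pool.Agent.Run7.h67.ST.DESC

open Pool.Agent.Run7.h787.ST

theorem two_le_absNorm {K : Type} [Field K] [NumberField K] (q : HeightOneSpectrum (𝓞 K)) :
    2 ≤ Ideal.absNorm q.asIdeal := by
  have h0 : Ideal.absNorm q.asIdeal ≠ 0 := by
    intro h
    exact q.ne_bot (Ideal.absNorm_eq_zero_iff.1 h)
  have h1 : Ideal.absNorm q.asIdeal ≠ 1 := by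
    intro h
    exact q.isPrime.ne_top (Ideal.absNorm_eq_one_iff.1 h)
  omega

theorem pow_char {G : Type} [Group G] [Finite G] (χ : G →* ℂˣ) (g : G) :
    (χ g : ℂ) ^ Nat.card G = 1 := by
  rw [← Units.val_pow_eq_pow_val, ← map_pow, pow_card_eq_one', map_one, Units.val_one]

theorem norm_char {G : Type} [Group G] [Finite G] (χ : G →* ℂˣ) (g : G) : ‖(χ g : ℂ)‖ = 1 :=
  Complex.norm_eq_one_of_pow_eq_one (pow_char χ g) Nat.card_pos.ne'

/-- the Euler factor -/
def ef {K : Type} [Field K] [NumberField K] (q : HeightOneSpectrum (𝓞 K)) (c : ℂ) (s : ℂ) : ℂ :=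
  1 - c * (Ideal.absNorm q.asIdeal : ℂ) ^ (-s)

variable {K : Type} [Field K] [NumberField K]

theorem N0 (q : HeightOneSpectrum (𝓞 K)) : (Ideal.absNorm q.asIdeal : ℂ) ≠ 0 := by
  have := two_le_absNorm q
  exact_mod_cast (by omega : Ideal.absNorm q.asIdeal ≠ 0)

theorem ef_diff (q : HeightOneSpectrum (𝓞 K)) (c : ℂ) : Differentiable ℂ (ef q c) := by
  intro s
  refine (differentiableAt_const _).sub ((differentiableAt_const _).mul ?_)
  exact (differentiableAt_id.neg).const_cpow (Or.inl (N0 q))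

theorem ef_ne {q : HeightOneSpectrum (𝓞 K)} {c : ℂ} (hc : ‖c‖ = 1) {s : ℂ} (hs : s.re ≠ 0) :
    ef q c s ≠ 0 := by
  intro h
  have h2 := two_le_absNorm q
  have e : c * (Ideal.absNorm q.asIdeal : ℂ) ^ (-s) = 1 := (sub_eq_zero.1 h).symm
  have hn : (Ideal.absNorm q.asIdeal : ℝ) ^ (-s.re) = 1 := by
    have := congrArg norm e
    rwa [norm_mul, hc, one_mul, Complex.norm_natCast_cpow_of_pos (by omega), norm_one,
      Complex.neg_re] at this
  have h1 : (1 : ℝ) < (Ideal.absNorm q.asIdeal : ℝ) := by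
    exact_mod_cast (by omega : 1 < Ideal.absNorm q.asIdeal)
  rcases lt_or_gt_of_ne hs with h3 | h3
  · have := Real.one_lt_rpow h1 (by linarith : 0 < -s.re)
    linarith
  · have := Real.rpow_lt_one_of_one_lt_of_neg h1 (by linarith : -s.re < 0)
    linarith

/-- the order of the Euler factor at `0` for the trivial character -/
theorem ef_order (q : HeightOneSpectrum (𝓞 K)) : analyticOrderAt (ef q 1) 0 = 1 := by
  have h0 : ef q 1 0 = 0 := by simp [ef]
  have hd : deriv (ef q 1) 0 ≠ 0 := by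
    have h1 : HasDerivAt (fun s : ℂ => (Ideal.absNorm q.asIdeal : ℂ) ^ (-s))
        ((Ideal.absNorm q.asIdeal : ℂ) ^ (-(0 : ℂ)) * Complex.log (Ideal.absNorm q.asIdeal : ℂ) * (-1))
        0 := by
      have h2 : HasDerivAt (fun s : ℂ => -s) (-1) 0 := (hasDerivAt_id (0 : ℂ)).neg
      exact h2.const_cpow (Or.inl (N0 q))
    have h3 : HasDerivAt (ef q 1) (0 - 1 *
        ((Ideal.absNorm q.asIdeal : ℂ) ^ (-(0 : ℂ)) * Complex.log (Ideal.absNorm q.asIdeal : ℂ) *
          (-1))) 0 := (hasDerivAt_const (0 : ℂ) (1 : ℂ)).sub (h1.const_mul 1)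
    rw [h3.deriv]
    have h4 : Complex.log (Ideal.absNorm q.asIdeal : ℂ) ≠ 0 := by
      rw [← Complex.natCast_log]
      have h5 : Real.log (Ideal.absNorm q.asIdeal : ℝ) ≠ 0 := by
        have := two_le_absNorm q
        exact (Real.log_pos (by exact_mod_cast (by omega : 1 < Ideal.absNorm q.asIdeal))).ne'
      exact_mod_cast h5
    simpa using h4
  have h := ((ef_diff q 1).analyticAt 0).analyticOrderAt_sub_eq_one_of_deriv_ne_zero hd
  rw [h0] at h
  simpa using h

theorem order_zero_of_ne {f : ℂ → ℂ} {s : ℂ} (hf : AnalyticAt ℂ f s) (h : f s ≠ 0) :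
    analyticOrderAt f s = 0 := hf.analyticOrderAt_eq_zero.2 h

/-- a function with a zero of order at least two -/
theorem two_le_order {G : ℂ → ℂ} (hG : AnalyticAt ℂ G 0) {n : ℕ}
    (h : ((n : ℕ∞)) ≤ analyticOrderAt G 0) : (1 ≤ n → G 0 = 0) ∧ (2 ≤ n → deriv G 0 = 0) := by
  obtain ⟨g, hg, hGg⟩ := (natCast_le_analyticOrderAt hG).1 h
  constructor
  · intro hn
    have := hGg.self_of_nhds
    rw [this]
    simp only [sub_zero, smul_eq_mul]
    rw [zero_pow (by omega), zero_mul]
  · intro hn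
    rw [Filter.EventuallyEq.deriv_eq (f := fun z => (z - 0) ^ n • g z) hGg]
    have h1 : HasDerivAt (fun z : ℂ => (z - 0) ^ n) ((n : ℂ) * (0 - 0) ^ (n - 1) * 1) 0 :=
      ((hasDerivAt_id (0 : ℂ)).sub_const 0).pow n
    have h2 := h1.mul hg.differentiableAt.hasDerivAt
    have h3 : deriv (fun z : ℂ => (z - 0) ^ n • g z) 0 = _ := h2.deriv
    rw [h3]
    simp only [sub_zero, mul_one]
    rw [zero_pow (by omega), zero_pow (by omega)]
    ring

open Classical in
theorem t_DESC : S_GLUE → S_NORM → S_PREL → S_UNIQ → S_CHEB → S_DESC := by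
  intro hGLUE hNORM hPREL hUNIQ hCHEB K _ _ _ w H S hab hS hun hD
  have hfd : FiniteDimensional K H := hab.1
  have hfin : Finite (Gal H) := inferInstance
  choose D' hV using hD
  obtain ⟨a, ha, -⟩ := hNORM K S 1 one_ne_zero
  obtain ⟨b, hb', -⟩ := hNORM K (insert a S) 1 one_ne_zero
  have hba : b ≠ a := fun h => hb' (by rw [h]; exact Finset.mem_insert_self _ _)
  have hb : b ∉ S := fun h => hb' (Finset.mem_insert_of_mem h)
  -- the Frobenius automorphisms
  let frob : HeightOneSpectrum (𝓞 K) → Gal H := fun p =>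
    if p = a then (D' b hb).frob p else (D' a ha).frob p
  have hfr : ∀ p, p ∉ S → IsFrob H p (frob p) := by
    intro p hp
    by_cases h : p = a
    · have e : frob p = (D' b hb).frob p := if_pos h
      rw [e]
      refine (D' b hb).isFrob p ?_
      rw [Finset.mem_insert, not_or]
      exact ⟨fun h' => hba (by rw [← h', h]), hp⟩
    · have e : frob p = (D' a ha).frob p := if_neg h
      rw [e]
      refine (D' a ha).isFrob p ?_
      rw [Finset.mem_insert, not_or]
      exact ⟨h, hp⟩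
  have hU : ∀ p, p ∉ S → ∀ q (hq : q ∉ S), q ≠ p → (D' q hq).frob p = frob p := by
    intro p hp q hq hqp
    refine hUNIQ K H p _ _ (hun p hp) ((D' q hq).isFrob p ?_) (hfr p hp)
    rw [Finset.mem_insert, not_or]
    exact ⟨fun h => hqp h.symm, hp⟩
  -- the functions
  let ι : Type := {q : HeightOneSpectrum (𝓞 K) // q ∉ S}
  let Fn : (Gal H →* ℂˣ) → ι → ℂ → ℂ := fun χ q => (D' q.1 q.2).L χ
  let En : (Gal H →* ℂˣ) → ι → ℂ → ℂ := fun χ q => ef q.1 (χ (frob q.1) : ℂ)
  have ho : IsOpen ({1}ᶜ : Set ℂ) := isOpen_compl_singleton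
  have hFa : ∀ χ (i : ι) (s : ℂ), s ≠ 1 → AnalyticAt ℂ (Fn χ i) s := fun χ i s hs =>
    ((D' i.1 i.2).analytic χ).analyticAt (ho.mem_nhds hs)
  have hEa : ∀ χ (i : ι) (s : ℂ), AnalyticAt ℂ (En χ i) s := fun χ i s =>
    (ef_diff i.1 _).analyticAt s
  have h10 : (0 : ℂ) ≠ 1 := zero_ne_one
  -- nonvanishing at zero
  have hne0 : ∀ χ : Gal H →* ℂˣ, χ ≠ 1 → ∃ i : ι, En χ i 0 ≠ 0 := by
    intro χ hχ
    obtain ⟨g, hg⟩ : ∃ g, χ g ≠ 1 := by
      by_contra h
      push Not at h
      exact hχ (MonoidHom.ext h)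
    obtain ⟨q, hq, -, hqg⟩ := hCHEB K H (insert a S) ∅ (D' a ha) g hab
      (fun p hp => hun p fun h => hp (Finset.mem_insert_of_mem h))
    rw [Finset.mem_insert, not_or] at hq
    refine ⟨⟨q, hq.2⟩, ?_⟩
    have e : frob q = g := by rw [← hU q hq.2 a ha (Ne.symm hq.1), hqg]
    show ef q (χ (frob q) : ℂ) 0 ≠ 0
    rw [e]
    unfold ef
    rw [neg_zero, Complex.cpow_zero, mul_one, sub_ne_zero]
    intro h
    exact hg (Units.ext h.symm)
  have hmain : ∀ χ : Gal H →* ℂˣ, ∃ G : ℂ → ℂ, DifferentiableOn ℂ G {1}ᶜ ∧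
      ∀ (i : ι) s, s ≠ 1 → Fn χ i s = En χ i s * G s := by
    intro χ
    refine hGLUE ι (Fn χ) (En χ) (fun i => (D' i.1 i.2).analytic χ) (fun i => ef_diff i.1 _) ?_ ?_
    · intro i j s hs
      by_cases hij : i = j
      · rw [hij]
      · have hij' : i.1 ≠ j.1 := fun h => hij (Subtype.ext h)
        have h := hPREL K H S i.1 j.1 i.2 j.2 hij' (D' i.1 i.2) (D' j.1 j.2) hab hun χ s hs
        rw [hU j.1 j.2 i.1 i.2 hij', hU i.1 i.2 j.1 j.2 (Ne.symm hij')] at h
        exact h
    · intro s₀ hs₀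
      by_cases hre : s₀.re = 0
      · by_cases h0 : s₀ = 0
        · subst h0
          by_cases hχ : χ = 1
          · refine ⟨⟨a, ha⟩, ?_⟩
            have e : En χ ⟨a, ha⟩ = ef a 1 := by
              show ef a (χ (frob a) : ℂ) = ef a 1
              rw [hχ]; simp
            rw [e, ef_order]
            refine ⟨ENat.one_ne_top, ?_⟩
            have h1 := (hV a ha).2.2
            have e2 : Fn χ ⟨a, ha⟩ = (D' a ha).L 1 := by rw [hχ]
            rw [e2]
            exact le_trans le_add_self h1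
          · obtain ⟨i, hi⟩ := hne0 χ hχ
            refine ⟨i, ?_⟩
            rw [order_zero_of_ne (hEa χ i 0) hi]
            exact ⟨ENat.zero_ne_top, zero_le⟩
        · -- purely imaginary
          have ht : s₀.im ≠ 0 := fun h => h0 (Complex.ext hre h)
          have hn : (Nat.card (Gal H) : ℝ) ≠ 0 := by exact_mod_cast Nat.card_pos.ne'
          obtain ⟨q, hq, hq1⟩ := hNORM K S (-s₀.im * Nat.card (Gal H))
            (mul_ne_zero (neg_ne_zero.2 ht) hn)
          refine ⟨⟨q, hq⟩, ?_⟩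
          have hne : En χ ⟨q, hq⟩ s₀ ≠ 0 := by
            intro h
            have e : (χ (frob q) : ℂ) * (Ideal.absNorm q.asIdeal : ℂ) ^ (-s₀) = 1 :=
              (sub_eq_zero.1 h).symm
            have e2 := congrArg (fun z => z ^ Nat.card (Gal H)) e
            simp only [mul_pow, one_pow] at e2
            rw [pow_char, one_mul, ← Complex.cpow_mul_nat] at e2
            apply hq1
            rw [← e2]
            congr 1
            have e3 : s₀ = (s₀.im : ℂ) * Complex.I := by
              apply Complex.ext <;> simp [hre]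
            conv_rhs => rw [e3]
            push_cast
            ring
          rw [order_zero_of_ne (hEa χ _ s₀) hne]
          exact ⟨ENat.zero_ne_top, zero_le⟩
      · refine ⟨⟨a, ha⟩, ?_⟩
        rw [order_zero_of_ne (hEa χ _ s₀) (ef_ne (norm_char χ _) hre)]
        exact ⟨ENat.zero_ne_top, zero_le⟩
  choose G hG1 hG2 using hmain
  have hGa : ∀ χ (s : ℂ), s ≠ 1 → AnalyticAt ℂ (G χ) s := fun χ s hs =>
    (hG1 χ).analyticAt (ho.mem_nhds hs)
  -- the order for the trivial character
  have hord : (S.card : ℕ∞) + 1 ≤ analyticOrderAt (G 1) 0 := by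
    have h1 := (hV a ha).2.2
    rw [Finset.card_insert_of_notMem ha] at h1
    have h2 : analyticOrderAt ((D' a ha).L 1) 0 = 1 + analyticOrderAt (G 1) 0 := by
      have h3 : (D' a ha).L 1 =ᶠ[nhds (0 : ℂ)] (ef a 1 * G 1) := by
        filter_upwards [ho.mem_nhds h10] with s hs
        have := hG2 1 ⟨a, ha⟩ s hs
        have e : En 1 ⟨a, ha⟩ = ef a 1 := by
          show ef a (((1 : Gal H →* ℂˣ) (frob a) : ℂˣ) : ℂ) = ef a 1
          simp
        rw [e] at this
        exact this
      rw [analyticOrderAt_congr h3, analyticOrderAt_mul ((ef_diff a 1).analyticAt 0) (hGa 1 0 h10),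
        ef_order]
    rw [h2] at h1
    push_cast at h1
    rw [add_comm 1 (analyticOrderAt (G 1) 0)] at h1
    exact (ENat.add_le_add_iff_right ENat.one_ne_top).1 h1
  have hScard : 1 ≤ S.card := Finset.card_pos.2 hS
  have htriv := two_le_order (hGa 1 0 h10) (n := S.card + 1) (by push_cast; exact hord)
  refine ⟨{ frob := frob, isFrob := hfr, L := G, analytic := hG1, euler := ?_ }, ?_, ?_, hord⟩
  · -- Euler product
    intro χ s hs
    have hs1 : s ≠ 1 := by
      intro h
      rw [h, Complex.one_re] at hs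
      exact lt_irrefl _ hs
    set f : HeightOneSpectrum (𝓞 K) → ℂ := fun p =>
      (1 - (χ (frob p) : ℂ) * (Ideal.absNorm p.asIdeal : ℂ) ^ (-s))⁻¹ with hf
    have h1 : HasProd (f ∘ ((↑) : {p : HeightOneSpectrum (𝓞 K) | p ∉ insert a S} →
        HeightOneSpectrum (𝓞 K))) ((D' a ha).L χ s) := by
      have h := (D' a ha).euler χ s hs
      have e : (fun p : {p : HeightOneSpectrum (𝓞 K) // p ∉ insert a S} =>
          (1 - (χ ((D' a ha).frob p) : ℂ) *
          (Ideal.absNorm (p : HeightOneSpectrum (𝓞 K)).asIdeal : ℂ) ^ (-s))⁻¹) = fun p => f p.1 := by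
        funext x
        obtain ⟨p, hp⟩ := x
        rw [Finset.mem_insert, not_or] at hp
        simp only [hf, hU p hp.2 a ha (Ne.symm hp.1)]
      rw [e] at h
      exact h
    have h2 : HasProd (f ∘ ((↑) : ({a} : Set (HeightOneSpectrum (𝓞 K))) →
        HeightOneSpectrum (𝓞 K))) (f a) := hasProd_unique _
    have hd : Disjoint {p : HeightOneSpectrum (𝓞 K) | p ∉ insert a S}
        ({a} : Set (HeightOneSpectrum (𝓞 K))) := by
      rw [Set.disjoint_singleton_right]
      intro h
      exact h (Finset.mem_insert_self _ _)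
    have h3 := h1.mul_disjoint hd h2
    have hset : {p : HeightOneSpectrum (𝓞 K) | p ∉ insert a S} ∪
        ({a} : Set (HeightOneSpectrum (𝓞 K))) = {p | p ∉ S} := by
      ext p
      simp only [Set.mem_union, Set.mem_ofPred_eq, Finset.mem_insert, not_or,
        Set.mem_singleton_iff]
      constructor
      · rintro (⟨-, h⟩ | rfl)
        · exact h
        · exact ha
      · intro h
        by_cases hpq : p = a
        · exact Or.inr hpq
        · exact Or.inl ⟨hpq, h⟩
    rw [hset] at h3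
    have hne : ef a (χ (frob a) : ℂ) s ≠ 0 := ef_ne (norm_char χ _) (by linarith)
    have h4 : (D' a ha).L χ s * f a = G χ s := by
      have h5 : (D' a ha).L χ s = ef a (χ (frob a) : ℂ) s * G χ s := hG2 χ ⟨a, ha⟩ s hs1
      have h6 : f a = (ef a (χ (frob a) : ℂ) s)⁻¹ := rfl
      rw [h5, h6]
      field_simp
    rw [h4] at h3
    exact h3
  · -- zero
    intro χ
    show G χ 0 = 0
    by_cases hχ : χ = 1
    · rw [hχ]
      exact htriv.1 (by omega)
    · obtain ⟨i, hi⟩ := hne0 χ hχ
      have h1 := hG2 χ i 0 h10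
      have h2 : Fn χ i 0 = 0 := (hV i.1 i.2).1 χ
      rw [h2] at h1
      exact (mul_eq_zero.1 h1.symm).resolve_left hi
  · -- double zeros
    intro χ c hc hχc
    show deriv (G χ) 0 = 0
    by_cases hχ : χ = 1
    · rw [hχ]
      exact htriv.2 (by omega)
    · obtain ⟨i, hi⟩ := hne0 χ hχ
      have h0 : G χ 0 = 0 := by
        have h1 := hG2 χ i 0 h10
        have h2 : Fn χ i 0 = 0 := (hV i.1 i.2).1 χ
        rw [h2] at h1
        exact (mul_eq_zero.1 h1.symm).resolve_left hi
      have h3 : deriv (Fn χ i) 0 = 0 := (hV i.1 i.2).2.1 χ c hc hχc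
      have h4 : Fn χ i =ᶠ[nhds (0 : ℂ)] (En χ i * G χ) := by
        filter_upwards [ho.mem_nhds h10] with s hs
        exact hG2 χ i s hs
      rw [h4.deriv_eq, deriv_mul (hEa χ i 0).differentiableAt (hGa χ 0 h10).differentiableAt, h0,
        mul_zero, zero_add] at h3
      exact (mul_eq_zero.1 h3).resolve_left hi

end Pool.Agent.Run7.h67.ST.DESC

namespace Pool.Agent.Run7.h67.ST

open Pool.Agent.Run7.h787.ST in
theorem t_DESC : S_GLUE → S_NORM → S_PREL → S_UNIQ → S_CHEB → S_DESC := DESC.t_DESC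

end Pool.Agent.Run7.h67.ST
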