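import Pool.Agent.Run7.h787.ST.Iface2

/-! # Piece GLUE of the project ST (helper67) -/

set_option autoImplicit false

open Filter Topology

namespace Pool.Agent.Run7.h67.ST

/-- division of analytic germs -/
theorem glue_div {f e : ℂ → ℂ} {s₀ : ℂ} (hf : AnalyticAt ℂ f s₀) (he : AnalyticAt ℂ e s₀)
    (h1 : analyticOrderAt e s₀ ≠ ⊤) (h2 : analyticOrderAt e s₀ ≤ analyticOrderAt f s₀) :
    ∃ g : ℂ → ℂ, AnalyticAt ℂ g s₀ ∧ ∀ᶠ s in 𝓝 s₀, f s = e s * g s := by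
  obtain ⟨n, hn⟩ := ENat.ne_top_iff_exists.1 h1
  obtain ⟨e1, he1, he10, hee⟩ := (he.analyticOrderAt_eq_natCast).1 hn.symm
  rw [← hn] at h2
  obtain ⟨f1, hf1, hff⟩ := (natCast_le_analyticOrderAt hf).1 h2
  refine ⟨fun s => f1 s / e1 s, hf1.div he1 he10, ?_⟩
  filter_upwards [hee, hff, he1.continuousAt.eventually_ne he10] with s h3 h4 h5
  rw [h3, h4]
  simp only [smul_eq_mul]
  field_simp

theorem t_GLUE : Pool.Agent.Run7.h787.ST.S_GLUE := by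
  classical
  intro ι F E hF hE hc ho
  have hFa : ∀ i (s₀ : ℂ), s₀ ≠ 1 → AnalyticAt ℂ (F i) s₀ := fun i s₀ h =>
    (hF i).analyticAt (isOpen_compl_singleton.mem_nhds h)
  have hEa : ∀ i (s₀ : ℂ), AnalyticAt ℂ (E i) s₀ := fun i s₀ => (hE i).analyticAt s₀
  have hex : ∀ s₀ : ℂ, s₀ ≠ 1 → ∃ i, ∃ g : ℂ → ℂ, analyticOrderAt (E i) s₀ ≠ ⊤ ∧
      AnalyticAt ℂ g s₀ ∧ ∀ᶠ s in 𝓝 s₀, F i s = E i s * g s := by
    intro s₀ h
    obtain ⟨i, h1, h2⟩ := ho s₀ h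
    obtain ⟨g, h3, h4⟩ := glue_div (hFa i s₀ h) (hEa i s₀) h1 h2
    exact ⟨i, g, h1, h3, h4⟩
  have hι : Nonempty ι := ⟨(ho 0 (by norm_num)).choose⟩
  choose! I g hI hg hFg using hex
  have hne : ∀ s₀ : ℂ, s₀ ≠ 1 → ∀ᶠ s in 𝓝[≠] s₀, E (I s₀) s ≠ 0 := by
    intro s₀ h
    rcases (hEa (I s₀) s₀).eventually_eq_zero_or_eventually_ne_zero with h1 | h1
    · exact absurd (analyticOrderAt_eq_top.2 h1) (hI s₀ h)
    · exact h1
  have hn1 : ∀ s₀ : ℂ, s₀ ≠ 1 → ∀ᶠ s in 𝓝 s₀, s ≠ 1 := fun s₀ h =>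
    isOpen_compl_singleton.mem_nhds h
  have c1 : ∀ j (s₀ : ℂ), s₀ ≠ 1 → ∀ᶠ s in 𝓝 s₀, F j s = E j s * g s₀ s := by
    intro j s₀ h
    have h1 : AnalyticAt ℂ (fun s => E j s * g s₀ s) s₀ := (hEa j s₀).mul (hg s₀ h)
    refine ((hFa j s₀ h).frequently_eq_iff_eventually_eq h1).1 (Eventually.frequently ?_)
    filter_upwards [hne s₀ h, (hFg s₀ h).filter_mono nhdsWithin_le_nhds,
      (hn1 s₀ h).filter_mono nhdsWithin_le_nhds] with s h2 h3 h4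
    have h5 := hc (I s₀) j s h4
    rw [h3] at h5
    refine mul_right_cancel₀ h2 ?_
    rw [← h5]
    ring
  let G : ℂ → ℂ := fun s => g s s
  have c2 : ∀ j (s₀ : ℂ), s₀ ≠ 1 → F j s₀ = E j s₀ * G s₀ := fun j s₀ h =>
    (c1 j s₀ h).self_of_nhds
  refine ⟨G, ?_, fun i s h => c2 i s h⟩
  intro s₀ h
  have h0 : s₀ ≠ 1 := h
  have h1 : ∀ᶠ s in 𝓝 s₀, G s = g s₀ s := by
    have h2 : ∀ᶠ s in 𝓝[≠] s₀, G s = g s₀ s := by
      filter_upwards [hne s₀ h0, (hFg s₀ h0).filter_mono nhdsWithin_le_nhds,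
        (hn1 s₀ h0).filter_mono nhdsWithin_le_nhds] with s h2 h3 h4
      have h5 := c2 (I s₀) s h4
      rw [h3] at h5
      exact (mul_left_cancel₀ h2 h5).symm
    rw [eventually_nhdsWithin_iff] at h2
    filter_upwards [h2] with s h3
    by_cases hs : s = s₀
    · rw [hs]
    · exact h3 hs
  exact ((hg s₀ h0).differentiableAt.congr_of_eventuallyEq h1).differentiableWithinAt

end Pool.Agent.Run7.h67.ST
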